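import Pool.Agent.W398.SG.StmC

/-! SG-C-PERM: uniseriality of the permutation module -/

namespace Pool.Agent.W637.SG.PERM

open Pool.Agent.W37.SG Pool.Agent.W398.SG.C

set_option autoImplicit false

theorem zp_split {p : ℕ} [Fact p.Prime] (a : ℤ_[p]) :
    ∃ (n : ℕ) (b : ℤ_[p]), a = n + p * b ∧ (n : ZMod p) = PadicInt.toZMod a := by
  have h1 : a - ((PadicInt.toZMod a).val : ℤ_[p]) ∈ RingHom.ker (PadicInt.toZMod (p := p)) := by
    rw [RingHom.mem_ker, map_sub, map_natCast, ZMod.natCast_zmod_val, sub_self]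
  rw [PadicInt.ker_toZMod, PadicInt.maximalIdeal_eq_span_p, Ideal.mem_span_singleton] at h1
  obtain ⟨b, hb⟩ := h1
  refine ⟨(PadicInt.toZMod a).val, b, ?_, ?_⟩
  · rw [← hb]; ring
  · rw [ZMod.natCast_zmod_val]

theorem main : S_PERM := by
  intro p _ P T _ _ _ _ ρ hUni H L lam m hL hn hadd hH hm hm1 hg0
  classical
  have hρ : ∀ (g g' : P) (x : T), ρ g (ρ g' x) = ρ (g * g') x := by
    intro g g' x
    rw [map_mul]; rfl
  have hlam0 : lam 0 = 0 := by
    have := hadd 0 L.zero_mem 0 L.zero_mem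
    rw [add_zero] at this
    simpa using this
  -- the projection
  let pi : L →+ (P ⧸ H → ZMod p) :=
    { toFun := fun x c => lam (ρ (c.out)⁻¹ x.1)
      map_zero' := by
        funext c
        simp [hlam0]
      map_add' := by
        intro x y
        funext c
        simp only [Submodule.coe_add, map_add, Pi.add_apply]
        exact hadd _ (hL _ _ x.2) _ (hL _ _ y.2) }
  have hpi : ∀ (x : L) (g : P), pi x (g : P ⧸ H) = lam (ρ g⁻¹ x.1) := by
    intro x g
    obtain ⟨h, hh⟩ := QuotientGroup.mk_out_eq_mul H g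
    show lam (ρ ((g : P ⧸ H).out)⁻¹ x.1) = _
    rw [hh, mul_inv_rev, ← hρ]
    exact hH _ (H.inv_mem h.2) _ (hL _ _ x.2)
  have hpig : ∀ (x : L) (g : P), pi ⟨ρ g x.1, hL g _ x.2⟩ = fun c => pi x (g⁻¹ • c) := by
    intro x g
    funext c
    induction c using QuotientGroup.induction_on with
    | H k =>
      have e : g⁻¹ • (k : P ⧸ H) = ((g⁻¹ * k : P) : P ⧸ H) := rfl
      rw [hpi, e, hpi, hρ, mul_inv_rev, inv_inv]
  have hpis : ∀ (a : ℤ_[p]) (x : L), pi (a • x) = PadicInt.toZMod a • pi x := by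
    intro a x
    obtain ⟨k, b, hk, hk'⟩ := zp_split a
    have h1 : a • x = k • x + p • (b • x) := by
      rw [hk, add_smul, mul_smul]
      simp only [Nat.cast_smul_eq_nsmul]
    rw [h1, map_add, map_nsmul, map_nsmul, ← hk']
    funext c
    simp
  -- surjectivity
  have hsurj : Function.Surjective pi := by
    intro f
    let _ : Fintype (P ⧸ H) := Fintype.ofFinite _
    refine ⟨∑ c : P ⧸ H, (f c).val • (⟨ρ c.out m, hL _ _ hm⟩ : L), ?_⟩
    rw [map_sum]
    funext c'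
    rw [Finset.sum_apply, Finset.sum_eq_single c']
    · rw [map_nsmul]
      have : pi ⟨ρ c'.out m, hL _ _ hm⟩ c' = 1 := by
        show lam (ρ (c'.out)⁻¹ (ρ c'.out m)) = 1
        rw [hρ, inv_mul_cancel, map_one]
        exact hm1
      rw [Pi.smul_apply, this]
      simp
    · intro c _ hc
      rw [map_nsmul]
      have : pi ⟨ρ c.out m, hL _ _ hm⟩ c' = 0 := by
        show lam (ρ (c'.out)⁻¹ (ρ c.out m)) = 0
        rw [hρ]
        apply hg0
        intro h
        apply hc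
        have := QuotientGroup.eq.2 h
        rw [QuotientGroup.out_eq', QuotientGroup.out_eq'] at this
        exact this.symm
      rw [Pi.smul_apply, this, smul_zero]
    · intro h
      exact absurd (Finset.mem_univ _) h
  -- the sublattice of a submodule
  let LU : Submodule (ZMod p) (P ⧸ H → ZMod p) → Submodule ℤ_[p] T := fun U =>
    { carrier := {x | ∃ h : x ∈ L, pi ⟨x, h⟩ ∈ U}
      zero_mem' := ⟨L.zero_mem, by
        have : (⟨0, L.zero_mem⟩ : L) = 0 := rfl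
        rw [this, map_zero]; exact U.zero_mem⟩
      add_mem' := by
        rintro x y ⟨hx, hx'⟩ ⟨hy, hy'⟩
        refine ⟨L.add_mem hx hy, ?_⟩
        have : (⟨x + y, L.add_mem hx hy⟩ : L) = ⟨x, hx⟩ + ⟨y, hy⟩ := rfl
        rw [this, map_add]
        exact U.add_mem hx' hy'
      smul_mem' := by
        rintro a x ⟨hx, hx'⟩
        refine ⟨L.smul_mem a hx, ?_⟩
        have : (⟨a • x, L.smul_mem a hx⟩ : L) = a • ⟨x, hx⟩ := rfl
        rw [this, hpis]
        exact U.smul_mem _ hx' }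
  have hLU : ∀ U x, x ∈ LU U ↔ ∃ h : x ∈ L, pi ⟨x, h⟩ ∈ U := fun U x => Iff.rfl
  have hinv : ∀ U : Submodule (ZMod p) (P ⧸ H → ZMod p),
      (∀ g : P, ∀ f ∈ U, (fun c : P ⧸ H => f (g • c)) ∈ U) →
      ∀ g, ∀ x ∈ LU U, ρ g x ∈ LU U := by
    rintro U hU g x ⟨hx, hx'⟩
    refine ⟨hL g x hx, ?_⟩
    rw [hpig ⟨x, hx⟩ g]
    exact hU g⁻¹ _ hx'
  have hfin : ∀ U : Submodule (ZMod p) (P ⧸ H → ZMod p),
      ∃ n : ℕ, ∀ x : T, (p : ℤ_[p]) ^ n • x ∈ LU U := by
    intro U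
    obtain ⟨k, hk⟩ := hn
    refine ⟨k + 1, fun x => ?_⟩
    have h1 : (p : ℤ_[p]) ^ (k + 1) • x = (p : ℤ_[p]) • ((p : ℤ_[p]) ^ k • x) := by
      rw [pow_succ', mul_smul]
    have h2 : (p : ℤ_[p]) ^ (k + 1) • x ∈ L := by
      rw [h1]; exact L.smul_mem _ (hk x)
    refine ⟨h2, ?_⟩
    have h3 : (⟨(p : ℤ_[p]) ^ (k + 1) • x, h2⟩ : L) = (p : ℤ_[p]) • ⟨(p : ℤ_[p]) ^ k • x, hk x⟩ :=
      Subtype.ext h1
    rw [h3, hpis, map_natCast, ZMod.natCast_self, zero_smul]
    exact U.zero_mem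
  have hle : ∀ U U', LU U ≤ LU U' → U ≤ U' := by
    intro U U' h f hf
    obtain ⟨x, rfl⟩ := hsurj f
    obtain ⟨_, h2⟩ := h (show (x : T) ∈ LU U from ⟨x.2, hf⟩)
    exact h2
  intro U U' hU hU'
  rcases hUni (LU U) (LU U') (hinv U hU) (hinv U' hU') (hfin U) (hfin U') with h | h
  · exact Or.inl (hle _ _ h)
  · exact Or.inr (hle _ _ h)

end Pool.Agent.W637.SG.PERM
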